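import Pool.Agent.H33.FlowShop

set_option autoImplicit false
open MeasureTheory Filter Topology
open Pool.Agent.H33.FlowShop

namespace Pool.Agent.Results.MP_0b8746_pr.Q1

/-- For every law `F` on `[0, ∞)` with finite variance and every `c > 0`: for all large `m` and then
all large `n`, the expected optimal error is below `c √(m n)`. -/
theorem result (F : Measure ℝ) [IsProbabilityMeasure F] (hF0 : ∀ᵐ t ∂F, 0 ≤ t)
    (hF2 : MemLp id 2 F) (c : ℝ) (hc : 0 < c) :
    ∃ m0 : ℕ, ∀ m : ℕ, m0 ≤ m → ∃ n1 : ℕ, ∀ n : ℕ, n1 ≤ n →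
      Integrable (optMakespan : (Fin n × Fin m → ℝ) → ℝ) (Measure.pi fun _ => F) ∧
      ∫ T, (optMakespan T - ((n : ℝ) + m - 1) * ∫ t, t ∂F)
        ∂(Measure.pi fun _ : Fin n × Fin m => F) < c * √((m : ℝ) * n) := by
  set B := Real.exp (2 * ∫ t, t ^ 2 ∂F + 2 * (∫ t, t ∂F) ^ 2) with hB
  have hBpos : 0 < B := Real.exp_pos _
  have hsq : Tendsto (fun m : ℕ => √(√m)) atTop atTop :=
    Real.tendsto_sqrt_atTop.comp (Real.tendsto_sqrt_atTop.comp tendsto_natCast_atTop_atTop)
  obtain ⟨m0, hm0⟩ := eventually_atTop.mp ((hsq.eventually_ge_atTop (6 * (4 + B) / c + 1)).and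
    (eventually_gt_atTop 0))
  refine ⟨m0, fun m hm => ?_⟩
  obtain ⟨h1, hm1⟩ := hm0 m hm
  have hm' : (1 : ℝ) ≤ m := by exact_mod_cast hm1
  have hsm : 1 ≤ √m := Real.one_le_sqrt.mpr hm'
  have hlog : 2 * (Real.log m + B) ≤ c / 3 * √m := by
    set r := √(√m) with hr
    have r1 : 1 ≤ r := Real.one_le_sqrt.mpr hsm
    have r2 : r * r = √m := Real.mul_self_sqrt (by linarith)
    have r3 : Real.log m = 4 * Real.log r := by
      rw [hr, Real.log_sqrt (by linarith), Real.log_sqrt (by linarith)]; ring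
    have r4 := Real.log_le_sub_one_of_pos (show 0 < r by linarith)
    have r5 : 6 * (4 + B) ≤ c * r := by
      have : 6 * (4 + B) / c ≤ r := by linarith
      rw [div_le_iff₀ hc] at this
      linarith
    rw [r3, ← r2]
    nlinarith
  have hη : 0 < min 1 (c / (12 * m * m)) := lt_min one_pos (by positivity)
  set η := min 1 (c / (12 * m * m)) with hηd
  obtain ⟨n1, hn1⟩ := eventually_atTop.mp (((tail F hF2 η hη).eventually
    (gt_mem_nhds (show (0 : ℝ) < c / (3 * m) by positivity))).and (eventually_ge_atTop m))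
  refine ⟨n1, fun n hn => ?_⟩
  obtain ⟨h2, h3⟩ := hn1 n hn
  have hn' : (m : ℝ) ≤ n := by exact_mod_cast h3
  have hs : 0 < √n := Real.sqrt_pos.mpr (by linarith)
  have hss : √n * √n = n := Real.mul_self_sqrt (by linarith)
  obtain ⟨I, E⟩ := expect_le F hF0 hF2 n m (by omega) hm1 (η * √n) (by positivity)
    (by nlinarith [min_le_left 1 (c / (12 * m * m))])
  refine ⟨I, E.trans_lt ?_⟩
  rw [Real.sqrt_mul (by linarith), ← hB]
  have t1 : ((n : ℝ) + m - 1) * ((Real.log m + B) / √n) ≤ c / 3 * √m * √n := by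
    have a1 : 0 ≤ Real.log m + B := by linarith [Real.log_nonneg hm']
    have a2 : ((n : ℝ) + m - 1) * ((Real.log m + B) / √n) ≤ (2 * (√n * √n)) * ((Real.log m + B) / √n) :=
      mul_le_mul_of_nonneg_right (by linarith) (by positivity)
    have a3 : (2 * (√n * √n)) * ((Real.log m + B) / √n) = 2 * (Real.log m + B) * √n := by
      field_simp
    rw [a3] at a2
    exact a2.trans (mul_le_mul_of_nonneg_right hlog hs.le)
  have t2 : 2 * (m : ℝ) * (m * (η * √n)) ≤ c / 3 * √n := by
    have a1 : η ≤ c / (12 * m * m) := min_le_right _ _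
    rw [le_div_iff₀ (by positivity)] at a1
    nlinarith
  have t3 : (n : ℝ) * m * ∫ t, max (t - η * √n) 0 ∂F < c / 3 * √n := by
    rw [lt_div_iff₀ (by positivity)] at h2
    have := mul_lt_mul_of_pos_right h2 hs
    generalize ∫ t, max (t - η * √n) 0 ∂F = I at this ⊢
    have e : (n : ℝ) * m * I = √n * I * (3 * m) * √n / 3 := by
      linear_combination (m * I) * hss.symm
    rw [e]
    linarith
  have t4 : c / 3 * √n ≤ c / 3 * √m * √n := by
    rw [mul_assoc]
    exact mul_le_mul_of_nonneg_left (by nlinarith) (by positivity)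
  linarith

end Pool.Agent.Results.MP_0b8746_pr.Q1
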